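import Mathlib
import Pool.Graph.R_seed8.Results.MP_91769e_gt.LagrangianCore
import Pool.Agent.KS6_66.Liou.Lag

/-!
# Liouville manifolds are determined by the germs of their cores

`LiouvilleManifold`, `core`, `LagrangianEmbedding`, `canonicalForm`, `OneForm`, `eval`,
`derivativeAt`, `differential`, `exteriorDerivative` are the definitions of the earlier result
`Pool.Graph.R_seed8.Results.MP_91769e_gt.LagrangianCore` (which answers Q1: a Liouville manifold
with smooth Lagrangian core `L` is equivalent to `T^*L`). Here we treat arbitrary cores, and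
equivalences which are prescribed near the core or on the core.
-/

open scoped Topology ContDiff Manifold
open Set Bundle

noncomputable section

namespace Pool.Agent.Results.MP_91769e_gt.GermsOfCores

open Pool.Agent.Results.MP_91769e_gt.LagrangianCore

section Definitions

variable {E : Type*} [NormedAddCommGroup E] [NormedSpace ℝ E] {H : Type*} [TopologicalSpace H]
  {X : Type*} [TopologicalSpace X] [ChartedSpace H X]
  {E' : Type*} [NormedAddCommGroup E'] [NormedSpace ℝ E'] {H' : Type*}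
  [TopologicalSpace H'] {Y : Type*} [TopologicalSpace Y] [ChartedSpace H' Y]

/-- `w` restricts to a diffeomorphism of the open set `A` onto the open set `O`, with inverse
`w'`. -/
structure LocalDiffeo (I : ModelWithCorners ℝ E H) (J : ModelWithCorners ℝ E' H')
    (A : Set X) (O : Set Y) (w : X → Y) (w' : Y → X) : Prop where
  isOpen : IsOpen A
  isOpen' : IsOpen O
  smooth : ContMDiffOn I J ∞ w A
  smooth' : ContMDiffOn J I ∞ w' O
  mapsTo : MapsTo w A O
  mapsTo' : MapsTo w' O A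
  left_inv : ∀ x ∈ A, w' (w x) = x
  right_inv : ∀ y ∈ O, w (w' y) = y

/-- `w^* β - α = dg` at the point `x`. -/
def PullsBackAt {I : ModelWithCorners ℝ E H} {J : ModelWithCorners ℝ E' H'}
    (α : OneForm I X) (β : OneForm J Y) (w : X → Y) (g : X → ℝ) (x : X) : Prop :=
  ∀ v : TangentSpace I x,
    eval β (w x) (derivativeAt I J w x v) - eval α x v = eval (differential I g) x v

/-- `w^* dβ = dα` at the point `x`. -/
def SymplecticAt {I : ModelWithCorners ℝ E H} {J : ModelWithCorners ℝ E' H'}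
    (α : OneForm I X) (β : OneForm J Y) (w : X → Y) (x : X) : Prop :=
  ∀ u v : TangentSpace I x,
    exteriorDerivative β (w x) (derivativeAt I J w x u) (derivativeAt I J w x v) =
      exteriorDerivative α x u v

/-- The diffeomorphism `Φ` and the smooth function `f` are an equivalence of the exact symplectic
manifolds `(X, α)` and `(Y, β)`: `Φ^* β - α = df`. -/
def Equivalence {I : ModelWithCorners ℝ E H} {J : ModelWithCorners ℝ E' H'}
    (α : OneForm I X) (β : OneForm J Y) (Φ : Diffeomorph I J X Y ∞) (f : X → ℝ) : Prop :=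
  ContMDiff I 𝓘(ℝ, ℝ) ∞ f ∧ ∀ x, PullsBackAt α β Φ f x

end Definitions

/-- The map `ι : L → X` is a smooth embedding. -/
structure SmoothEmbedding (E : Type*) [NormedAddCommGroup E]
    [NormedSpace ℝ E] {X : Type*} [TopologicalSpace X] [ChartedSpace E X]
    (F : Type*) [NormedAddCommGroup F] [NormedSpace ℝ F]
    {L : Type*} [TopologicalSpace L] [ChartedSpace F L] (ι : L → X) : Prop where
  smooth : ContMDiff 𝓘(ℝ, F) 𝓘(ℝ, E) ∞ ι
  embedding : Topology.IsEmbedding ι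
  immersion : ∀ q, Function.Injective (derivativeAt 𝓘(ℝ, F) 𝓘(ℝ, E) ι q)

/-- The zero section of the cotangent bundle. -/
def zeroSection (F : Type*) [NormedAddCommGroup F] [NormedSpace ℝ F]
    {L : Type*} [TopologicalSpace L] [ChartedSpace F L] (q : L) : CotangentBundle F L :=
  ⟨q, (0 : TangentSpace 𝓘(ℝ, F) q →L[ℝ] ℝ)⟩

section Proof

variable {E : Type*} [NormedAddCommGroup E] [NormedSpace ℝ E] [FiniteDimensional ℝ E]
  {X : Type*} [TopologicalSpace X] [ChartedSpace E X] [IsManifold 𝓘(ℝ, E) ∞ X]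

lemma core_eq [T2Space X] (𝓧 : LiouvilleManifold E X) : 𝓧.core = (toLData 𝓧).core := by
  ext x
  simp only [LiouvilleManifold.core, mem_iInter]
  constructor
  · intro h t ht
    have h1 : x ∈ (toLData 𝓧).φ (-t) '' (toLData 𝓧).X₀ := h t ht
    rw [← (toLData 𝓧).K_eq] at h1
    exact h1
  · intro h t ht
    have h1 : x ∈ (toLData 𝓧).K t := h t ht
    rw [(toLData 𝓧).K_eq] at h1
    exact h1

variable {E' : Type*} [NormedAddCommGroup E'] [NormedSpace ℝ E'] {H H' : Type*}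
  [TopologicalSpace H] [TopologicalSpace H'] {I : ModelWithCorners ℝ E H}
  {J : ModelWithCorners ℝ E' H'}
  {X : Type*} [TopologicalSpace X] [ChartedSpace H X]
  {Y : Type*} [TopologicalSpace Y] [ChartedSpace H' Y]

lemma pb_of {α : OneForm I X} {β : OneForm J Y} {w : X → Y} {g : X → ℝ} {x : X}
    (h : PullsBackAt α β w g x) : Helper186.PB α β w 1 g x := by
  intro u
  rw [one_mul]
  exact sub_eq_iff_eq_add'.1 (h u)

lemma of_pb {α : OneForm I X} {β : OneForm J Y} {w : X → Y} {g : X → ℝ} {x : X}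
    (h : Helper186.PB α β w 1 g x) : PullsBackAt α β w g x := by
  intro u
  have h1 := h u
  rw [one_mul] at h1
  exact sub_eq_iff_eq_add'.2 h1

end Proof

/-- **Theorem.** Let `𝓧`, `𝓨` be Liouville manifolds with one-forms `α`, `β`, and `L` a closed
manifold.
(1) Germs: if `w` is a diffeomorphism of a neighbourhood of the core of `𝓧` onto an open set, which
maps the core of `𝓧` onto the core of `𝓨`, and `w^* β - α = dg`, then some equivalence `(Φ, f)` of
`𝓧` and `𝓨` is equal to `(w, g)` near the core.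
(2) It is enough that `w^* β - α = dg` and `w^* dβ = dα` at the points of the core; then some
equivalence is equal to `w` on the core.
(3) If the cores are smooth closed submanifolds, embedded by `ι : L → X` and `ι' : L → Y`, and
`w ∘ ι = ι'`, then it is enough that `w^* dβ = dα` at the points of the core and that
`ι'^* β - ι^* α` is the differential of the restriction of a smooth function.
(4) If the core is moreover isotropic, then it is enough that `w^* dβ = dα` at the points of the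
core.
(5) If the core of `𝓧` is a closed Lagrangian submanifold, embedded by `ι : L → X`, then some
equivalence `(Φ, f)` of `𝓧` and `T^*L` maps `ι q` to the point `q` of the zero section, and `f = 0`
on the core.
(6) In this case each germ of an exact symplectic diffeomorphism to `T^*L`, defined near the core
and mapping it onto the zero section, extends to an equivalence.
(7) If the cores of both `𝓧` and `𝓨` are Lagrangian, and embedded by `ι` and `ι'`, then some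
equivalence `(Φ, f)` satisfies `Φ ∘ ι = ι'` and `f ∘ ι = 0`. -/
theorem result
    {E : Type*} [NormedAddCommGroup E] [NormedSpace ℝ E] [FiniteDimensional ℝ E]
    {X : Type*} [TopologicalSpace X] [T2Space X] [ChartedSpace E X] [IsManifold 𝓘(ℝ, E) ∞ X]
    {E' : Type*} [NormedAddCommGroup E'] [NormedSpace ℝ E'] [FiniteDimensional ℝ E']
    {Y : Type*} [TopologicalSpace Y] [T2Space Y] [ChartedSpace E' Y] [IsManifold 𝓘(ℝ, E') ∞ Y]
    {F : Type*} [NormedAddCommGroup F] [NormedSpace ℝ F] [FiniteDimensional ℝ F]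
    {L : Type*} [TopologicalSpace L] [T2Space L] [CompactSpace L] [ChartedSpace F L]
    [IsManifold 𝓘(ℝ, F) ∞ L]
    (𝓧 : LiouvilleManifold E X) (𝓨 : LiouvilleManifold E' Y) :
    (∀ (A : Set X) (O : Set Y) (w : X → Y) (w' : Y → X) (g : X → ℝ),
      LocalDiffeo 𝓘(ℝ, E) 𝓘(ℝ, E') A O w w' → 𝓧.core ⊆ A → w '' 𝓧.core = 𝓨.core →
      ContMDiffOn 𝓘(ℝ, E) 𝓘(ℝ, ℝ) ∞ g A → (∀ x ∈ A, PullsBackAt 𝓧.form 𝓨.form w g x) →
      ∃ (Φ : Diffeomorph 𝓘(ℝ, E) 𝓘(ℝ, E') X Y ∞) (f : X → ℝ),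
        Equivalence 𝓧.form 𝓨.form Φ f ∧ ∀ᶠ x in 𝓝ˢ 𝓧.core, Φ x = w x ∧ f x = g x) ∧
    (∀ (A : Set X) (O : Set Y) (w : X → Y) (w' : Y → X) (g : X → ℝ),
      LocalDiffeo 𝓘(ℝ, E) 𝓘(ℝ, E') A O w w' → 𝓧.core ⊆ A → w '' 𝓧.core = 𝓨.core →
      ContMDiffOn 𝓘(ℝ, E) 𝓘(ℝ, ℝ) ∞ g A → (∀ x ∈ 𝓧.core, PullsBackAt 𝓧.form 𝓨.form w g x) →
      (∀ x ∈ 𝓧.core, SymplecticAt 𝓧.form 𝓨.form w x) →
      ∃ (Φ : Diffeomorph 𝓘(ℝ, E) 𝓘(ℝ, E') X Y ∞) (f : X → ℝ),
        Equivalence 𝓧.form 𝓨.form Φ f ∧ ∀ x ∈ 𝓧.core, Φ x = w x) ∧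
    (∀ (ι : L → X) (ι' : L → Y), SmoothEmbedding E F ι → SmoothEmbedding E' F ι' →
      range ι = 𝓧.core → range ι' = 𝓨.core → ∀ (A : Set X) (O : Set Y) (w : X → Y) (w' : Y → X),
      LocalDiffeo 𝓘(ℝ, E) 𝓘(ℝ, E') A O w w' → 𝓧.core ⊆ A → (∀ q, w (ι q) = ι' q) →
      (∀ q, SymplecticAt 𝓧.form 𝓨.form w (ι q)) →
      (∀ g : X → ℝ, ContMDiff 𝓘(ℝ, E) 𝓘(ℝ, ℝ) ∞ g →
        (∀ (q : L) (v : TangentSpace 𝓘(ℝ, F) q),
          eval 𝓨.form (ι' q) (derivativeAt 𝓘(ℝ, F) 𝓘(ℝ, E') ι' q v) =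
            eval 𝓧.form (ι q) (derivativeAt 𝓘(ℝ, F) 𝓘(ℝ, E) ι q v) +
            eval (differential 𝓘(ℝ, E) g) (ι q) (derivativeAt 𝓘(ℝ, F) 𝓘(ℝ, E) ι q v)) →
        ∃ (Φ : Diffeomorph 𝓘(ℝ, E) 𝓘(ℝ, E') X Y ∞) (f : X → ℝ),
          Equivalence 𝓧.form 𝓨.form Φ f ∧ ∀ q, Φ (ι q) = ι' q) ∧
      ((∀ (q : L) (u v : TangentSpace 𝓘(ℝ, F) q), exteriorDerivative 𝓧.form (ι q)
          (derivativeAt 𝓘(ℝ, F) 𝓘(ℝ, E) ι q u) (derivativeAt 𝓘(ℝ, F) 𝓘(ℝ, E) ι q v) = 0) →
        ∃ (Φ : Diffeomorph 𝓘(ℝ, E) 𝓘(ℝ, E') X Y ∞) (f : X → ℝ),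
          Equivalence 𝓧.form 𝓨.form Φ f ∧ ∀ q, Φ (ι q) = ι' q)) ∧
    (∀ ι : L → X, LagrangianEmbedding 𝓧.form F ι → range ι = 𝓧.core →
      ∃ (Φ : Diffeomorph 𝓘(ℝ, E) (cotangentCorners F) X (CotangentBundle F L) ∞) (f : X → ℝ),
        Equivalence 𝓧.form (canonicalForm F L) Φ f ∧
        ∀ q, Φ (ι q) = zeroSection F q ∧ f (ι q) = 0) ∧
    (∀ (A : Set X) (O : Set (CotangentBundle F L)) (w : X → CotangentBundle F L)
      (w' : CotangentBundle F L → X) (g : X → ℝ),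
      LocalDiffeo 𝓘(ℝ, E) (cotangentCorners F) A O w w' → 𝓧.core ⊆ A →
      w '' 𝓧.core = range (zeroSection F) → ContMDiffOn 𝓘(ℝ, E) 𝓘(ℝ, ℝ) ∞ g A →
      (∀ x ∈ A, PullsBackAt 𝓧.form (canonicalForm F L) w g x) →
      ∃ (Φ : Diffeomorph 𝓘(ℝ, E) (cotangentCorners F) X (CotangentBundle F L) ∞) (f : X → ℝ),
        Equivalence 𝓧.form (canonicalForm F L) Φ f ∧
        ∀ᶠ x in 𝓝ˢ 𝓧.core, Φ x = w x ∧ f x = g x) ∧
    (∀ (ι : L → X) (ι' : L → Y), LagrangianEmbedding 𝓧.form F ι →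
      LagrangianEmbedding 𝓨.form F ι' → range ι = 𝓧.core → range ι' = 𝓨.core →
      ∃ (Φ : Diffeomorph 𝓘(ℝ, E) 𝓘(ℝ, E') X Y ∞) (f : X → ℝ),
        Equivalence 𝓧.form 𝓨.form Φ f ∧ ∀ q, Φ (ι q) = ι' q ∧ f (ι q) = 0) := by
  have hX := core_eq 𝓧
  have hY := core_eq 𝓨
  have hβs : Helper186.SmoothForm 𝓨.form := smoothForm_of_smoothOneForm 𝓨.form_smooth
  refine ⟨?_, ?_, ?_, ?_, ?_, ?_⟩
  · intro A O w w' g hw hA hcore hg hpb
    rw [hX] at hA
    rw [hX, hY] at hcore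
    obtain ⟨Φ, f, hf, hΦ, hΦw⟩ := KS6_66.Liou.germ_extends (KS6_66.Liou.attractor_core (toLData 𝓧))
      (KS6_66.Liou.attractor_core (toLData 𝓨)) (toLData 𝓧).hlam (toLData 𝓧).hnd hw.isOpen
      hw.isOpen' hA hw.smooth hw.smooth' hg hw.mapsTo hw.mapsTo' hw.left_inv hw.right_inv hcore
      (fun x hx => pb_of (hpb x hx))
    exact ⟨Φ, f, ⟨hf, fun x => of_pb (hΦ x)⟩, by rw [hX]; exact hΦw⟩
  · intro A O w w' g hw hA hcore hg hpb hs
    rw [hX] at hA hpb hs
    rw [hX, hY] at hcore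
    obtain ⟨Φ, f, hf, hΦ, hΦw⟩ := KS6_66.Liou.infinitesimal_extends
      (KS6_66.Liou.attractor_core (toLData 𝓧))
      (KS6_66.Liou.attractor_core (toLData 𝓨)) (toLData 𝓧).hlam hβs (toLData 𝓧).hnd hw.isOpen
      hw.isOpen' hA hw.smooth hw.smooth' hg hw.mapsTo hw.mapsTo' hw.left_inv hw.right_inv hcore
      (fun x hx => pb_of (hpb x hx)) (fun x hx u v => hs x hx u v)
    exact ⟨Φ, f, ⟨hf, fun x => of_pb (hΦ x)⟩, by rw [hX]; exact hΦw⟩
  · intro ι ι' hι hι' hcι hcι' A O w w' hw hA hwι hs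
    rw [hX] at hcι hA
    rw [hY] at hcι'
    refine ⟨?_, ?_⟩
    · intro g hg hform
      obtain ⟨Φ, f, hf, hΦ, hΦw⟩ := KS6_66.Liou.smooth_core_extends hι.smooth hι.embedding
        hι.immersion (hcι ▸ KS6_66.Liou.attractor_core (toLData 𝓧))
        (hcι' ▸ KS6_66.Liou.attractor_core (toLData 𝓨)) (toLData 𝓧).hlam hβs (toLData 𝓧).hnd
        hw.isOpen hw.isOpen' (hcι ▸ hA) hw.smooth hw.smooth' hw.mapsTo hw.mapsTo' hw.left_inv
        hw.right_inv hwι (fun q u v => hs q u v) hg (fun q v => hform q v)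
      exact ⟨Φ, f, ⟨hf, fun x => of_pb (hΦ x)⟩, hΦw⟩
    · intro hiso
      obtain ⟨Φ, f, hf, hΦ, hΦw⟩ := KS6_66.Liou.isotropic_core_extends (toLData 𝓧) (toLData 𝓨)
        hι.smooth hι.embedding hι.immersion hcι (fun q u v => hiso q u v) hι'.smooth
        hι'.embedding hι'.immersion hcι' hw.isOpen hw.isOpen' hA hw.smooth hw.smooth' hw.mapsTo
        hw.mapsTo' hw.left_inv hw.right_inv hwι (fun q u v => hs q u v)
      exact ⟨Φ, f, ⟨hf, fun x => of_pb (hΦ x)⟩, hΦw⟩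
  · intro ι hι hcι
    rw [hX] at hcι
    obtain ⟨Φ, f, hf, hΦ, hΦq⟩ := KS6_66.Liou.lagrangian_core (toLData 𝓧) hι.smooth
      hι.embedding hι.immersion hcι hι.isotropic hι.half_dimensional
    exact ⟨Φ, f, ⟨hf, fun x => of_pb (hΦ x)⟩, hΦq⟩
  · intro A O w w' g hw hA hcore hg hpb
    rw [hX] at hA hcore
    obtain ⟨Φ, f, hf, hΦ, hΦw⟩ := KS6_66.Liou.germ_extends_cot (toLData 𝓧) hw.isOpen
      hw.isOpen' hA hw.smooth hw.smooth' hg hw.mapsTo hw.mapsTo' hw.left_inv hw.right_inv hcore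
      (fun x hx => pb_of (hpb x hx))
    exact ⟨Φ, f, ⟨hf, fun x => of_pb (hΦ x)⟩, by rw [hX]; exact hΦw⟩
  · intro ι ι' hι hι' hcι hcι'
    rw [hX] at hcι
    rw [hY] at hcι'
    obtain ⟨Φ, f, hf, hΦ, hΦq⟩ := KS6_66.Liou.lagrangian_cores (toLData 𝓧) (toLData 𝓨) hι.smooth
      hι.embedding hι.immersion hcι hι.isotropic hι.half_dimensional hι'.smooth
      hι'.embedding hι'.immersion hcι' hι'.isotropic hι'.half_dimensional
    exact ⟨Φ, f, ⟨hf, fun x => of_pb (hΦ x)⟩, hΦq⟩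

end Pool.Agent.Results.MP_91769e_gt.GermsOfCores
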